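import Mathlib
import Pool.Agent.E456.SieveUp

/-!
# Upper bound sieve of dimension at most 4 on intervals `(M, 3M]`
-/

namespace Pool.Agent.Gold42

open Finset Pool.Agent.E456

/-- sieving limit -/
def Y8 (J : ℕ) : ℕ := 8 ^ (2 ^ J)

lemma Y8_ge (J : ℕ) : 8 ≤ Y8 J := by
  unfold Y8
  calc 8 = 8 ^ 1 := by norm_num
    _ ≤ 8 ^ (2 ^ J) := Nat.pow_le_pow_right (by norm_num) Nat.one_le_two_pow

lemma exists_J8 (M : ℕ) (hM : 8 ^ 12 ≤ M) : ∃ J, Y8 J ^ 12 ≤ M ∧ M < Y8 J ^ 24 := by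
  have hex : ∃ J, M < Y8 (J + 1) ^ 12 := by
    refine ⟨M, ?_⟩
    have h1 : M < 2 ^ M := Nat.lt_two_pow_self
    have h2 : 2 ^ M < 8 ^ (2 ^ M) := Nat.lt_pow_self (by norm_num)
    have h3 : 8 ^ (2 ^ M) ≤ 8 ^ (2 ^ (M + 1)) :=
      Nat.pow_le_pow_right (by norm_num) (Nat.pow_le_pow_right (by norm_num) (Nat.le_succ M))
    have h4 : Y8 (M + 1) ≤ Y8 (M + 1) ^ 12 := Nat.le_self_pow (by norm_num) _
    unfold Y8 at *
    omega
  classical
  let J := Nat.find hex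
  have hJ : M < Y8 (J + 1) ^ 12 := Nat.find_spec hex
  refine ⟨J, ?_, ?_⟩
  · by_cases h0 : J = 0
    · rw [h0]; simpa [Y8] using hM
    · have := Nat.find_min hex (m := J - 1) (by omega)
      rw [show J - 1 + 1 = J by omega] at this
      omega
  · have : Y8 (J + 1) ^ 12 = Y8 J ^ 24 := by
      unfold Y8
      rw [← pow_mul, ← pow_mul, pow_succ]
      congr 1
      ring
    rw [← this]; exact hJ

/-- The main term of the sieve, `w = 8`, dimension at most `4`. -/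
lemma Fbar8_bound : ∃ K : ℝ, 0 < K ∧ ∀ (J : ℕ) (y : ℕ → ℝ), (∀ i, 0 ≤ y i ∧ y i ≤ 4 / i) →
    Fbar 8 J y ≤ K * Real.exp (-∑ p ∈ pr 8 J, y p) := by
  obtain ⟨C, hC, h⟩ := blk_sum_le
  refine ⟨Real.exp (Real.exp (3 * (4 * C))), Real.exp_pos _, fun J y hy => ?_⟩
  have hy1 : ∀ i ∈ pr 8 J, 0 ≤ y i ∧ y i ≤ 1 / 2 := by
    intro i hi
    refine ⟨(hy i).1, (hy i).2.trans ?_⟩
    simp only [pr, mem_filter, mem_Ioc] at hi
    have : (8 : ℝ) < i := by exact_mod_cast hi.1.1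
    rw [div_le_iff₀ (by linarith)]
    linarith
  have h1 := Fbar_le 8 J (by norm_num) y (4 * C) (by positivity) hy1 (by
    intro j _
    calc ∑ i ∈ blk 8 j, y i ≤ ∑ i ∈ blk 8 j, 4 * ((1 : ℝ) / i) :=
          sum_le_sum fun i _ => (hy i).2.trans (le_of_eq (by ring))
      _ = 4 * ∑ i ∈ blk 8 j, (1 : ℝ) / i := by rw [mul_sum]
      _ ≤ 4 * C := by
          have := h 8 j (by norm_num)
          linarith)
  have h2 := prod_one_sub_le (pr 8 J) y (fun i hi => by linarith [(hy1 i hi).2])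
  calc Fbar 8 J y ≤ _ := h1
    _ ≤ Real.exp (-∑ i ∈ pr 8 J, y i) * Real.exp (Real.exp (3 * (4 * C))) := by gcongr
    _ = _ := mul_comm _ _

/-- Upper bound sieve of dimension at most 4, natural count on `(M, 3M]`. -/
theorem sieve4 : ∃ K : ℝ, 0 < K ∧ ∀ (J Q c M : ℕ), 0 < Q → Q ≤ Y8 J → Y8 J ^ 12 ≤ M →
    ∀ (x : ℕ → ℕ → ℝ), (∀ l n, 0 ≤ x l n ∧ x l n ≤ 1) → (∀ l n, x l (n + l) = x l n) →
    (∀ l, l.Prime → l ∣ Q → ∀ n, n ≡ c [MOD Q] → x l n = 0) →
    (∀ l, xbar x Q l ≤ 4 / l) →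
    ∑ n ∈ (Ioc M (3 * M)).filter (fun n => n ≡ c [MOD Q]), ∏ l ∈ pr 8 J, (1 - x l n)
      ≤ K * (M / Q) * Real.exp (-∑ p ∈ pr 8 J, xbar x Q p) := by
  obtain ⟨K, hK, hF⟩ := Fbar8_bound
  obtain ⟨C, hC, hm⟩ := mertens2
  refine ⟨6 * (K + 2 * Real.exp (4 * C) * 24), by positivity, ?_⟩
  intro J Q c M hQ hQY hYM x hx hper hQx hxb
  have hY8 := Y8_ge J
  have hY8' : (8 : ℝ) ≤ Y8 J := by exact_mod_cast hY8
  have hM : 0 < M := lt_of_lt_of_le (by positivity) hYM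
  have hM' : (0 : ℝ) < M := by exact_mod_cast hM
  have hQ' : (0 : ℝ) < Q := by exact_mod_cast hQ
  have h1 := sieve_log 8 J Q c M (3 * M) (by norm_num) hQ hM (by omega) x hx hper hQx
  have hxb0 : ∀ l, 0 ≤ xbar x Q l := by
    intro l
    unfold xbar
    split_ifs
    · exact le_rfl
    · exact div_nonneg (sum_nonneg fun n _ => (hx l n).1) (by positivity)
  have h2 := hF J (xbar x Q) (fun i => ⟨hxb0 i, hxb i⟩)
  have hrat : ((3 * M : ℕ) : ℝ) / M = 3 := by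
    push_cast
    field_simp
  have hlog1 : 0 ≤ Real.log (((3 * M : ℕ) : ℝ) / M) := by
    rw [hrat]; exact Real.log_nonneg (by norm_num)
  have hlog2 : Real.log (((3 * M : ℕ) : ℝ) / M) ≤ 2 := by
    rw [hrat]
    have := Real.log_le_sub_one_of_pos (x := 3) (by norm_num)
    linarith
  -- the error term
  have hsum : ∑ p ∈ pr 8 J, xbar x Q p ≤ 4 * (Real.log (Real.log (Y8 J)) + C) := by
    calc ∑ p ∈ pr 8 J, xbar x Q p ≤ ∑ p ∈ pr 8 J, 4 * ((1 : ℝ) / p) :=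
          sum_le_sum fun p _ => (hxb p).trans (le_of_eq (by ring))
      _ = 4 * (S1 (Y8 J) - S1 8) := by rw [← mul_sum, pr_sum_eq 8 J (by norm_num)]; rfl
      _ ≤ 4 * (Real.log (Real.log (Y8 J)) + C) := by
          have h3 := (abs_le.mp (hm (Y8 J) (by omega))).2
          have h4 : 0 ≤ S1 8 := sum_nonneg fun p _ => by positivity
          linarith
  have hlY : 0 < Real.log (Y8 J) := Real.log_pos (by linarith)
  have hexp : Real.exp (-(4 * C)) / (Real.log (Y8 J)) ^ 4 ≤ Real.exp (-∑ p ∈ pr 8 J, xbar x Q p) := by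
    have : Real.exp (-(4 * C)) / (Real.log (Y8 J)) ^ 4
        = Real.exp (-(4 * (Real.log (Real.log (Y8 J)) + C))) := by
      rw [show -(4 * (Real.log (Real.log (Y8 J)) + C)) = -(4 * C) + -(4 * Real.log (Real.log (Y8 J))) by ring,
        Real.exp_add, Real.exp_neg (4 * Real.log _), div_eq_mul_inv]
      congr 2
      rw [show (4 : ℝ) * Real.log (Real.log (Y8 J)) = ((4 : ℕ) : ℝ) * Real.log (Real.log (Y8 J)) by norm_num,
        Real.exp_nat_mul, Real.exp_log hlY]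
    rw [this]
    exact Real.exp_le_exp.mpr (by linarith)
  have hQYr : (Q : ℝ) ≤ Y8 J := by exact_mod_cast hQY
  have hYMr : ((Y8 J : ℝ)) ^ 12 ≤ M := by exact_mod_cast hYM
  have hlogY : Real.log (Y8 J) ^ 4 ≤ 24 * (Y8 J : ℝ) := by
    have h3 := Real.pow_div_factorial_le_exp (x := Real.log (Y8 J)) hlY.le 4
    rw [Real.exp_log (by linarith)] at h3
    have h4 : ((4).factorial : ℝ) = 24 := by norm_num [Nat.factorial]
    rw [h4, div_le_iff₀ (by norm_num)] at h3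
    linarith
  have herr : 2 * Q * (((8 : ℕ) : ℝ) ^ (2 ^ J)) ^ 8 / M
      ≤ (2 * Real.exp (4 * C) * 24) * (1 / Q) * Real.exp (-∑ p ∈ pr 8 J, xbar x Q p) := by
    have hYe : (((8 : ℕ) : ℝ) ^ (2 ^ J)) = (Y8 J : ℝ) := by unfold Y8; push_cast; rfl
    rw [hYe]
    set Y : ℝ := (Y8 J : ℝ) with hYdef
    calc 2 * Q * Y ^ 8 / M ≤ 2 * Y * Y ^ 8 / Y ^ 12 := by gcongr
      _ = 2 / Y ^ 3 := by field_simp
      _ ≤ 2 * (1 / Y) * (24 / Real.log Y ^ 4) := by
          rw [show 2 * (1 / Y) * (24 / Real.log Y ^ 4) = 2 * 24 / (Y * Real.log Y ^ 4) by field_simp]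
          rw [div_le_div_iff₀ (by positivity) (by positivity)]
          calc 2 * (Y * Real.log Y ^ 4) ≤ 2 * (Y * (24 * Y)) := by gcongr
            _ = 2 * 24 * Y ^ 2 := by ring
            _ ≤ 2 * 24 * Y ^ 3 := by
                have : Y ^ 2 ≤ Y ^ 3 := pow_le_pow_right₀ (by linarith) (by norm_num)
                linarith
      _ ≤ 2 * (1 / Q) * (24 / Real.log Y ^ 4) := by gcongr
      _ = (2 * Real.exp (4 * C) * 24) * (1 / Q) * (Real.exp (-(4 * C)) / (Real.log Y) ^ 4) := by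
          rw [Real.exp_neg]
          have := (Real.exp_pos (4 * C)).ne'
          field_simp
      _ ≤ _ := by gcongr
  have h3 := (abs_le.mp h1).2
  set E : ℝ := Real.exp (-∑ p ∈ pr 8 J, xbar x Q p) with hE
  have hE0 : 0 < E := Real.exp_pos _
  have h4 : Real.log (((3 * M : ℕ) : ℝ) / M) / Q * Fbar 8 J (xbar x Q) ≤ 2 * K * (1 / Q) * E := by
    calc Real.log (((3 * M : ℕ) : ℝ) / M) / Q * Fbar 8 J (xbar x Q)
        ≤ Real.log (((3 * M : ℕ) : ℝ) / M) / Q * (K * E) := by gcongr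
      _ ≤ 2 / Q * (K * E) := by gcongr
      _ = _ := by ring
  have h5 : ∑ n ∈ (Ioc M (3 * M)).filter (fun n => n ≡ c [MOD Q]), nu 8 J x n / n
      ≤ 2 * (K + 2 * Real.exp (4 * C) * 24) * (1 / Q) * E := by
    have h6 : (2 * Real.exp (4 * C) * 24) * (1 / (Q : ℝ)) * E
        ≤ 2 * (2 * Real.exp (4 * C) * 24) * (1 / Q) * E := by
      have : 0 ≤ (2 * Real.exp (4 * C) * 24) * (1 / (Q : ℝ)) * E := by positivity
      linarith
    calc _ ≤ 2 * K * (1 / Q) * E + (2 * Real.exp (4 * C) * 24) * (1 / Q) * E := by linarith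
      _ ≤ 2 * K * (1 / Q) * E + 2 * (2 * Real.exp (4 * C) * 24) * (1 / Q) * E := by linarith
      _ = _ := by ring
  calc ∑ n ∈ (Ioc M (3 * M)).filter (fun n => n ≡ c [MOD Q]), ∏ l ∈ pr 8 J, (1 - x l n)
      ≤ ∑ n ∈ (Ioc M (3 * M)).filter (fun n => n ≡ c [MOD Q]), (3 * M) * (nu 8 J x n / n) := by
        refine sum_le_sum fun n hn => ?_
        rw [mem_filter, mem_Ioc] at hn
        have hn0 : (0 : ℝ) < n := by exact_mod_cast (by omega : 0 < n)
        have hn3 : (n : ℝ) ≤ 3 * M := by exact_mod_cast hn.1.2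
        have h7 := nu_ge 8 J (by norm_num) x n (fun l => hx l n)
        have h8 := nu_nonneg 8 J (by norm_num) x n (fun l => hx l n)
        refine h7.trans ?_
        rw [← mul_div_assoc, le_div_iff₀ hn0]
        nlinarith
    _ = (3 * M) * ∑ n ∈ (Ioc M (3 * M)).filter (fun n => n ≡ c [MOD Q]), nu 8 J x n / n := by
        rw [mul_sum]
    _ ≤ (3 * M) * (2 * (K + 2 * Real.exp (4 * C) * 24) * (1 / Q) * E) := by gcongr
    _ = _ := by ring

end Pool.Agent.Gold42
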