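import Mathlib
import Pool.Agent.Gold42.Sieve
import Pool.Agent.E456.HSum

/-!
# Upper bounds for the number of `n` with `n ± h`, `n ± h'` prime
-/

namespace Pool.Agent.Gold42

open Finset Pool.Agent.E456

/-- the sieve bound on a long interval -/
theorem sieve_long : ∃ K : ℝ, 0 < K ∧ ∀ (J Q c X : ℕ), 0 < Q → Q ≤ Y8 J → Y8 J ^ 12 ≤ X →
    ∀ (x : ℕ → ℕ → ℝ), (∀ l n, 0 ≤ x l n ∧ x l n ≤ 1) → (∀ l n, x l (n + l) = x l n) →
    (∀ l, l.Prime → l ∣ Q → ∀ n, n ≡ c [MOD Q] → x l n = 0) →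
    (∀ l, xbar x Q l ≤ 4 / l) → ∀ H : ℕ, X ≤ H →
    ∑ n ∈ (Ioc X H).filter (fun n => n ≡ c [MOD Q]), ∏ l ∈ pr 8 J, (1 - x l n)
      ≤ K * (H / Q) * Real.exp (-∑ p ∈ pr 8 J, xbar x Q p) := by
  obtain ⟨K, hK, h4⟩ := sieve4
  refine ⟨K, hK, ?_⟩
  intro J Q c X hQ hQY hYX x hx hper hQx hxb H
  have hQ' : (0 : ℝ) < Q := by exact_mod_cast hQ
  have hX8 : 8 ≤ X := by
    have h1 := Y8_ge J
    have h2 : Y8 J ≤ Y8 J ^ 12 := Nat.le_self_pow (by norm_num) _
    omega
  have hterm : ∀ n, 0 ≤ ∏ l ∈ pr 8 J, (1 - x l n) := fun n =>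
    prod_nonneg fun l _ => by linarith [(hx l n).2]
  set E := Real.exp (-∑ p ∈ pr 8 J, xbar x Q p) with hE
  have hE0 : 0 < E := Real.exp_pos _
  induction H using Nat.strong_induction_on with
  | _ H ih =>
    intro hXH
    by_cases h3 : H ≤ 3 * X
    · calc ∑ n ∈ (Ioc X H).filter (fun n => n ≡ c [MOD Q]), ∏ l ∈ pr 8 J, (1 - x l n)
          ≤ ∑ n ∈ (Ioc X (3 * X)).filter (fun n => n ≡ c [MOD Q]), ∏ l ∈ pr 8 J, (1 - x l n) := by
            apply sum_le_sum_of_subset_of_nonneg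
            · exact filter_subset_filter _ (Ioc_subset_Ioc_right h3)
            · intro n _ _; exact hterm n
        _ ≤ K * (X / Q) * E := h4 J Q c X hQ hQY hYX x hx hper hQx hxb
        _ ≤ K * (H / Q) * E := by
            have : (X : ℝ) ≤ H := by exact_mod_cast hXH
            gcongr
    · push Not at h3
      set H' := (H + 2) / 3 with hH'
      have e1 : H ≤ 3 * H' := by omega
      have e2 : X ≤ H' := by omega
      have e3 : H' < H := by omega
      have e4 : 2 * H' ≤ H := by omega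
      have h5 := ih H' e3 e2
      have h6 := h4 J Q c H' hQ hQY (hYX.trans e2) x hx hper hQx hxb
      calc ∑ n ∈ (Ioc X H).filter (fun n => n ≡ c [MOD Q]), ∏ l ∈ pr 8 J, (1 - x l n)
          ≤ ∑ n ∈ (Ioc X H').filter (fun n => n ≡ c [MOD Q]) ∪
              (Ioc H' (3 * H')).filter (fun n => n ≡ c [MOD Q]), ∏ l ∈ pr 8 J, (1 - x l n) := by
            apply sum_le_sum_of_subset_of_nonneg
            · intro n hn
              rw [mem_filter, mem_Ioc] at hn
              rw [mem_union, mem_filter, mem_Ioc, mem_filter, mem_Ioc]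
              by_cases h : n ≤ H'
              · left; exact ⟨⟨hn.1.1, h⟩, hn.2⟩
              · right; exact ⟨⟨by omega, by omega⟩, hn.2⟩
            · intro n _ _; exact hterm n
        _ = ∑ n ∈ (Ioc X H').filter (fun n => n ≡ c [MOD Q]), ∏ l ∈ pr 8 J, (1 - x l n) +
              ∑ n ∈ (Ioc H' (3 * H')).filter (fun n => n ≡ c [MOD Q]),
                ∏ l ∈ pr 8 J, (1 - x l n) := by
            apply sum_union
            rw [disjoint_left]
            intro n hn hn'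
            rw [mem_filter, mem_Ioc] at hn hn'
            omega
        _ ≤ K * (H' / Q) * E + K * (H' / Q) * E := add_le_add h5 h6
        _ = K * ((2 * H' : ℕ) / Q) * E := by push_cast; ring
        _ ≤ K * (H / Q) * E := by
            have : ((2 * H' : ℕ) : ℝ) ≤ H := by exact_mod_cast e4
            gcongr

lemma mem_pr8 {J l : ℕ} : l ∈ pr 8 J ↔ (8 < l ∧ l ≤ Y8 J) ∧ l.Prime := by
  unfold pr Y8
  rw [mem_filter, mem_Ioc]

/-- `l` divides one of `n ± h`, `n ± h'` -/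
def bad4 (h h' l n : ℕ) : Prop :=
  (l : ℤ) ∣ (n : ℤ) - h ∨ (l : ℤ) ∣ (n : ℤ) + h ∨ (l : ℤ) ∣ (n : ℤ) - h' ∨ (l : ℤ) ∣ (n : ℤ) + h'

lemma bad4_per (h h' l n : ℕ) : bad4 h h' l (n + l) ↔ bad4 h h' l n := by
  unfold bad4
  have e : ∀ a : ℤ, (l : ℤ) ∣ ((n + l : ℕ) : ℤ) + a ↔ (l : ℤ) ∣ (n : ℤ) + a := by
    intro a
    have : ((n + l : ℕ) : ℤ) + a = ((n : ℤ) + a) + l := by push_cast; ring
    rw [this]; simp
  have e1 := e (-h)
  have e2 := e h
  have e3 := e (-h')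
  have e4 := e h'
  rw [← sub_eq_add_neg, ← sub_eq_add_neg] at e1 e3
  rw [e1, e2, e3, e4]

/-- the sieve weights -/
noncomputable def x4 (h h' l n : ℕ) : ℝ := by
  classical exact if bad4 h h' l n then 1 else 0

lemma x4_bounds (h h' l n : ℕ) : 0 ≤ x4 h h' l n ∧ x4 h h' l n ≤ 1 := by
  unfold x4; split_ifs <;> norm_num

lemma x4_per (h h' l n : ℕ) : x4 h h' l (n + l) = x4 h h' l n := by
  classical
  unfold x4
  have h : bad4 h h' l (n + l) = bad4 h h' l n := propext (bad4_per h h' l n)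
  simp only [h]

/-- one class -/
lemma card_class (l : ℕ) (a : ℤ) :
    ((range l).filter (fun n : ℕ => (l : ℤ) ∣ (n : ℤ) + a)).card ≤ 1 := by
  rw [card_le_one]
  intro i hi j hj
  rw [mem_filter, mem_range] at hi hj
  have h1 := dvd_sub hi.2 hj.2
  have h2 : (i : ℤ) + a - ((j : ℤ) + a) = (i : ℤ) - j := by ring
  rw [h2] at h1
  by_contra hne
  have h3 := Int.le_of_dvd (a := (l : ℤ)) (b := |(i : ℤ) - j|) (by
    rw [abs_pos, sub_ne_zero]; exact_mod_cast hne) ((dvd_abs _ _).2 h1)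
  have h4 : |(i : ℤ) - j| < l := by
    rw [abs_lt]; constructor <;> omega
  omega

lemma sum_x4_le (h h' l : ℕ) : ∑ n ∈ range l, x4 h h' l n ≤ 4 := by
  classical
  have h1 : ∑ n ∈ range l, x4 h h' l n = (((range l).filter (fun n => bad4 h h' l n)).card : ℝ) := by
    unfold x4
    rw [← sum_filter, sum_const, nsmul_eq_mul, mul_one]
  rw [h1]
  have h2 : (range l).filter (fun n => bad4 h h' l n) ⊆
      ((range l).filter (fun n : ℕ => (l : ℤ) ∣ (n : ℤ) + (-h : ℤ)) ∪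
       (range l).filter (fun n : ℕ => (l : ℤ) ∣ (n : ℤ) + (h : ℤ))) ∪
      ((range l).filter (fun n : ℕ => (l : ℤ) ∣ (n : ℤ) + (-h' : ℤ)) ∪
       (range l).filter (fun n : ℕ => (l : ℤ) ∣ (n : ℤ) + (h' : ℤ))) := by
    intro n hn
    rw [mem_filter] at hn
    simp only [mem_union, mem_filter, ← sub_eq_add_neg]
    rcases hn.2 with h | h | h | h
    · exact Or.inl (Or.inl ⟨hn.1, h⟩)
    · exact Or.inl (Or.inr ⟨hn.1, h⟩)
    · exact Or.inr (Or.inl ⟨hn.1, h⟩)
    · exact Or.inr (Or.inr ⟨hn.1, h⟩)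
  have h3 := card_le_card h2
  have c1 := card_class l (-h)
  have c2 := card_class l h
  have c3 := card_class l (-h')
  have c4 := card_class l h'
  have u1 := card_union_le ((range l).filter (fun n : ℕ => (l : ℤ) ∣ (n : ℤ) + (-h : ℤ)))
    ((range l).filter (fun n : ℕ => (l : ℤ) ∣ (n : ℤ) + (h : ℤ)))
  have u2 := card_union_le ((range l).filter (fun n : ℕ => (l : ℤ) ∣ (n : ℤ) + (-h' : ℤ)))
    ((range l).filter (fun n : ℕ => (l : ℤ) ∣ (n : ℤ) + (h' : ℤ)))
  have u3 := card_union_le (((range l).filter (fun n : ℕ => (l : ℤ) ∣ (n : ℤ) + (-h : ℤ)) ∪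
       (range l).filter (fun n : ℕ => (l : ℤ) ∣ (n : ℤ) + (h : ℤ))))
      ((range l).filter (fun n : ℕ => (l : ℤ) ∣ (n : ℤ) + (-h' : ℤ)) ∪
       (range l).filter (fun n : ℕ => (l : ℤ) ∣ (n : ℤ) + (h' : ℤ)))
  have h4 : ((range l).filter (fun n => bad4 h h' l n)).card ≤ 4 := by omega
  exact_mod_cast h4

/-- a representative of the class of `a` -/
lemma exists_rep (l : ℕ) (hl : 0 < l) (a : ℤ) : ∃ n ∈ range l, (l : ℤ) ∣ (n : ℤ) - a := by
  refine ⟨(a % l).toNat, ?_, ?_⟩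
  · rw [mem_range]
    have h1 := Int.emod_lt_of_pos a (by exact_mod_cast hl : (0 : ℤ) < l)
    have h2 := Int.emod_nonneg a (by exact_mod_cast hl.ne' : (l : ℤ) ≠ 0)
    omega
  · have h2 := Int.emod_nonneg a (by exact_mod_cast hl.ne' : (l : ℤ) ≠ 0)
    rw [Int.toNat_of_nonneg h2]
    have h3 := Int.emod_add_mul_ediv a l
    refine ⟨-(a / l), ?_⟩
    linarith

/-- at least two classes -/
lemma sum_x4_ge2 (h h' l : ℕ) (hl : l.Prime) (hl2 : 2 < l) (hh : ¬ l ∣ h) :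
    2 ≤ ∑ n ∈ range l, x4 h h' l n := by
  classical
  have h1 : ∑ n ∈ range l, x4 h h' l n = (((range l).filter (fun n => bad4 h h' l n)).card : ℝ) := by
    unfold x4
    rw [← sum_filter, sum_const, nsmul_eq_mul, mul_one]
  rw [h1]
  obtain ⟨a, ha, ha'⟩ := exists_rep l hl.pos h
  obtain ⟨b, hb, hb'⟩ := exists_rep l hl.pos (-h)
  have hne : a ≠ b := by
    rintro rfl
    have h2 := dvd_sub hb' ha'
    have h3 : (a : ℤ) - -(h : ℤ) - ((a : ℤ) - h) = ((2 * h : ℕ) : ℤ) := by push_cast; ring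
    rw [h3] at h2
    have h4 : l ∣ 2 * h := by exact_mod_cast h2
    rcases (hl.dvd_mul).1 h4 with h5 | h5
    · exact absurd (Nat.le_of_dvd (by norm_num) h5) (by omega)
    · exact hh h5
  have hsub : ({a, b} : Finset ℕ) ⊆ (range l).filter (fun n => bad4 h h' l n) := by
    intro c hc
    rw [mem_insert, mem_singleton] at hc
    rcases hc with rfl | rfl
    · exact mem_filter.2 ⟨ha, Or.inl ha'⟩
    · refine mem_filter.2 ⟨hb, Or.inr (Or.inl ?_)⟩
      simpa using hb'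
  have := card_le_card hsub
  rw [card_pair hne] at this
  exact_mod_cast this

/-- four classes -/
lemma sum_x4_ge4 (h h' l : ℕ) (hl : l.Prime) (hl2 : 2 < l) (hh : ¬ l ∣ h) (hh' : ¬ l ∣ h')
    (hlt : h' < h) (hs : ¬ l ∣ h - h') (hp : ¬ l ∣ h + h') :
    4 ≤ ∑ n ∈ range l, x4 h h' l n := by
  classical
  have h1 : ∑ n ∈ range l, x4 h h' l n = (((range l).filter (fun n => bad4 h h' l n)).card : ℝ) := by
    unfold x4
    rw [← sum_filter, sum_const, nsmul_eq_mul, mul_one]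
  rw [h1]
  obtain ⟨a, ha, ha'⟩ := exists_rep l hl.pos h
  obtain ⟨b, hb, hb'⟩ := exists_rep l hl.pos (-h)
  obtain ⟨c, hc, hc'⟩ := exists_rep l hl.pos h'
  obtain ⟨d, hd, hd'⟩ := exists_rep l hl.pos (-h')
  have h2h : ∀ k : ℕ, ¬ l ∣ k → ¬ (l : ℤ) ∣ ((2 * k : ℕ) : ℤ) := by
    intro k hk h2
    have h4 : l ∣ 2 * k := by exact_mod_cast h2
    rcases (hl.dvd_mul).1 h4 with h5 | h5
    · exact absurd (Nat.le_of_dvd (by norm_num) h5) (by omega)
    · exact hk h5
  have hs' : ¬ (l : ℤ) ∣ (h : ℤ) - h' := by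
    intro h2
    apply hs
    have : ((h - h' : ℕ) : ℤ) = (h : ℤ) - h' := by rw [Nat.cast_sub hlt.le]
    rw [← this] at h2
    exact_mod_cast h2
  have hp' : ¬ (l : ℤ) ∣ (h : ℤ) + h' := by
    intro h2
    apply hp
    exact_mod_cast h2
  have hab : a ≠ b := by
    rintro rfl
    have h2 := dvd_sub hb' ha'
    have h3 : (a : ℤ) - -(h : ℤ) - ((a : ℤ) - h) = ((2 * h : ℕ) : ℤ) := by push_cast; ring
    rw [h3] at h2
    exact h2h h hh h2
  have hcd : c ≠ d := by
    rintro rfl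
    have h2 := dvd_sub hd' hc'
    have h3 : (c : ℤ) - -(h' : ℤ) - ((c : ℤ) - h') = ((2 * h' : ℕ) : ℤ) := by push_cast; ring
    rw [h3] at h2
    exact h2h h' hh' h2
  have hac : a ≠ c := by
    rintro rfl
    have h2 := dvd_sub hc' ha'
    have h3 : (a : ℤ) - (h' : ℤ) - ((a : ℤ) - h) = (h : ℤ) - h' := by ring
    rw [h3] at h2
    exact hs' h2
  have hbd : b ≠ d := by
    rintro rfl
    have h2 := dvd_sub hb' hd'
    have h3 : (b : ℤ) - -(h : ℤ) - ((b : ℤ) - -(h' : ℤ)) = (h : ℤ) - h' := by ring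
    rw [h3] at h2
    exact hs' h2
  have had : a ≠ d := by
    rintro rfl
    have h2 := dvd_sub hd' ha'
    have h3 : (a : ℤ) - -(h' : ℤ) - ((a : ℤ) - h) = (h : ℤ) + h' := by ring
    rw [h3] at h2
    exact hp' h2
  have hbc : b ≠ c := by
    rintro rfl
    have h2 := dvd_sub hb' hc'
    have h3 : (b : ℤ) - -(h : ℤ) - ((b : ℤ) - (h' : ℤ)) = (h : ℤ) + h' := by ring
    rw [h3] at h2
    exact hp' h2
  have hsub : ({a, b, c, d} : Finset ℕ) ⊆ (range l).filter (fun n => bad4 h h' l n) := by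
    intro e he
    simp only [mem_insert, mem_singleton] at he
    rcases he with rfl | rfl | rfl | rfl
    · exact mem_filter.2 ⟨ha, Or.inl ha'⟩
    · refine mem_filter.2 ⟨hb, Or.inr (Or.inl ?_)⟩
      simpa using hb'
    · exact mem_filter.2 ⟨hc, Or.inr (Or.inr (Or.inl hc'))⟩
    · refine mem_filter.2 ⟨hd, Or.inr (Or.inr (Or.inr ?_))⟩
      simpa using hd'
  have hcard : ({a, b, c, d} : Finset ℕ).card = 4 := by
    rw [card_insert_of_notMem, card_insert_of_notMem, card_pair hcd]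
    · simp only [mem_insert, mem_singleton, not_or]; exact ⟨hbc, hbd⟩
    · simp only [mem_insert, mem_singleton, not_or]; exact ⟨hab, hac, had⟩
  have := card_le_card hsub
  rw [hcard] at this
  exact_mod_cast this

end Pool.Agent.Gold42
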