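import Mathlib
import Pool.Agent.Gold42.Pair

/-!
# Upper bounds for prime pairs and quadruples symmetric about `n`
-/

namespace Pool.Agent.Gold42

open Finset Pool.Agent.E456 Filter

lemma xbar4_le (h h' l : ℕ) : xbar (x4 h h') 1 l ≤ 4 / l := by
  unfold xbar
  split_ifs
  · positivity
  · have := sum_x4_le h h' l
    gcongr

lemma xbar4_eq (h h' l : ℕ) (hl : l.Prime) :
    xbar (x4 h h') 1 l = (∑ n ∈ range l, x4 h h' l n) / l := by
  unfold xbar
  rw [if_neg]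
  intro hd
  exact hl.one_lt.ne' (Nat.dvd_one.1 hd)

lemma xbar4_nonneg (h h' l : ℕ) : 0 ≤ xbar (x4 h h') 1 l := by
  unfold xbar
  split_ifs
  · exact le_rfl
  · exact div_nonneg (sum_nonneg fun n _ => (x4_bounds h h' l n).1) (by positivity)

lemma sum_pr_one (J : ℕ) : ∑ p ∈ pr 8 J, (1 : ℝ) / p = S1 (Y8 J) - S1 8 := by
  rw [pr_sum_eq 8 J (by norm_num)]; rfl

lemma sum_pr_dvd (J k : ℕ) (hk : 0 < k) :
    ∑ p ∈ pr 8 J, (if p ∣ k then (1 : ℝ) / p else 0) ≤ hh k := by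
  unfold hh
  rw [← sum_filter]
  apply sum_le_sum_of_subset_of_nonneg
  · intro p hp
    rw [mem_filter, mem_pr8] at hp
    rw [Nat.mem_primeFactors]
    exact ⟨hp.1.2, hp.2, hk.ne'⟩
  · intro p _ _; positivity

lemma sum_xbar2 (J h : ℕ) (hh0 : 0 < h) :
    2 * (S1 (Y8 J) - S1 8) - 2 * hh h ≤ ∑ p ∈ pr 8 J, xbar (x4 h h) 1 p := by
  have h1 : ∀ p ∈ pr 8 J, 2 * ((1 : ℝ) / p) - 2 * (if p ∣ h then (1 : ℝ) / p else 0)
      ≤ xbar (x4 h h) 1 p := by
    intro p hp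
    rw [mem_pr8] at hp
    have hp0 : (0 : ℝ) < p := by exact_mod_cast hp.2.pos
    by_cases hd : p ∣ h
    · rw [if_pos hd]
      have := xbar4_nonneg h h p
      linarith
    · rw [if_neg hd, xbar4_eq h h p hp.2]
      have := sum_x4_ge2 h h p hp.2 (by omega) hd
      rw [mul_zero, sub_zero, mul_one_div]
      gcongr
  refine le_trans ?_ (sum_le_sum h1)
  rw [sum_sub_distrib, ← mul_sum, ← mul_sum, sum_pr_one]
  have := sum_pr_dvd J h hh0
  linarith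

lemma sum_xbar4 (J h h' : ℕ) (hh0 : 0 < h') (hlt : h' < h) :
    4 * (S1 (Y8 J) - S1 8) - 4 * (hh h + hh h' + (hh (h - h') + hh (h + h')))
      ≤ ∑ p ∈ pr 8 J, xbar (x4 h h') 1 p := by
  have h1 : ∀ p ∈ pr 8 J, 4 * ((1 : ℝ) / p) - 4 * ((if p ∣ h then (1 : ℝ) / p else 0) +
      (if p ∣ h' then (1 : ℝ) / p else 0) + ((if p ∣ h - h' then (1 : ℝ) / p else 0)
        + (if p ∣ h + h' then (1 : ℝ) / p else 0))) ≤ xbar (x4 h h') 1 p := by
    intro p hp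
    rw [mem_pr8] at hp
    have hp0 : (0 : ℝ) < p := by exact_mod_cast hp.2.pos
    have hx0 := xbar4_nonneg h h' p
    have hp1 : (0 : ℝ) ≤ 1 / p := by positivity
    have i1 : (0 : ℝ) ≤ if p ∣ h then (1 : ℝ) / p else 0 := by split_ifs <;> positivity
    have i2 : (0 : ℝ) ≤ if p ∣ h' then (1 : ℝ) / p else 0 := by split_ifs <;> positivity
    have i3 : (0 : ℝ) ≤ if p ∣ h - h' then (1 : ℝ) / p else 0 := by split_ifs <;> positivity
    have i4 : (0 : ℝ) ≤ if p ∣ h + h' then (1 : ℝ) / p else 0 := by split_ifs <;> positivity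
    by_cases d1 : p ∣ h
    · rw [if_pos d1]; linarith
    by_cases d2 : p ∣ h'
    · rw [if_pos d2]; linarith
    by_cases d3 : p ∣ h - h'
    · rw [if_pos d3]; linarith
    by_cases d4 : p ∣ h + h'
    · rw [if_pos d4]; linarith
    rw [if_neg d1, if_neg d2, if_neg d3, if_neg d4, xbar4_eq h h' p hp.2]
    have := sum_x4_ge4 h h' p hp.2 (by omega) d1 d2 hlt d3 d4
    have e : 4 * ((1 : ℝ) / p) - 4 * (0 + 0 + (0 + 0)) = 4 / p := by ring
    rw [e]
    gcongr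
  refine le_trans ?_ (sum_le_sum h1)
  rw [sum_sub_distrib, ← mul_sum, ← mul_sum, sum_add_distrib, sum_add_distrib, sum_add_distrib,
    sum_pr_one]
  have e1 := sum_pr_dvd J h (by omega)
  have e2 := sum_pr_dvd J h' hh0
  have e3 := sum_pr_dvd J (h - h') (by omega)
  have e4 := sum_pr_dvd J (h + h') (by omega)
  linarith

/-- the `n` with `n ± h` and `n ± h'` prime -/
def Q4 (N h h' : ℕ) : Finset ℕ := (Ioc 0 N).filter (fun n =>
  (n - h).Prime ∧ (n + h).Prime ∧ (n - h').Prime ∧ (n + h').Prime)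

lemma mem_Q4 {N h h' n : ℕ} : n ∈ Q4 N h h' ↔ (0 < n ∧ n ≤ N) ∧
    (n - h).Prime ∧ (n + h).Prime ∧ (n - h').Prime ∧ (n + h').Prime := by
  unfold Q4; rw [mem_filter, mem_Ioc]

lemma prod_one (J h h' n : ℕ) (hX : Y8 J < n - h) (hX' : Y8 J < n - h')
    (hp : (n - h).Prime ∧ (n + h).Prime ∧ (n - h').Prime ∧ (n + h').Prime) :
    ∏ l ∈ pr 8 J, (1 - x4 h h' l n) = 1 := by
  apply prod_eq_one
  intro l hl
  rw [mem_pr8] at hl
  have hnb : ¬ bad4 h h' l n := by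
    rintro (hd | hd | hd | hd)
    · have e : ((n - h : ℕ) : ℤ) = (n : ℤ) - h := by rw [Nat.cast_sub (by omega)]
      rw [← e] at hd
      have h1 := (Nat.prime_dvd_prime_iff_eq hl.2 hp.1).1 (by exact_mod_cast hd)
      omega
    · have h1 := (Nat.prime_dvd_prime_iff_eq hl.2 hp.2.1).1 (by exact_mod_cast hd)
      omega
    · have e : ((n - h' : ℕ) : ℤ) = (n : ℤ) - h' := by rw [Nat.cast_sub (by omega)]
      rw [← e] at hd
      have h1 := (Nat.prime_dvd_prime_iff_eq hl.2 hp.2.2.1).1 (by exact_mod_cast hd)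
      omega
    · have h1 := (Nat.prime_dvd_prime_iff_eq hl.2 hp.2.2.2).1 (by exact_mod_cast hd)
      omega
  unfold x4
  rw [if_neg hnb]
  ring

lemma card_near (N h Y : ℕ) :
    ((Ioc 0 N).filter (fun n => 0 < n - h ∧ n - h ≤ Y)).card ≤ Y := by
  have : ((Ioc 0 N).filter (fun n => 0 < n - h ∧ n - h ≤ Y)).card ≤ (Ioc 0 Y).card := by
    apply card_le_card_of_injOn (fun n => n - h)
    · intro n hn
      rw [mem_coe, mem_filter] at hn
      exact mem_coe.2 (mem_Ioc.2 hn.2)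
    · intro i hi j hj hij
      rw [mem_coe, mem_filter] at hi hj
      simp only at hij
      omega
  simpa using this

/-- the basic bound -/
lemma Q4_le : ∃ K : ℝ, 0 < K ∧ ∀ J X N h h' : ℕ, Y8 J ^ 12 ≤ X → X ≤ N →
    ((Q4 N h h').card : ℝ) ≤ 3 * X + K * N * Real.exp (-∑ p ∈ pr 8 J, xbar (x4 h h') 1 p) := by
  classical
  obtain ⟨K, hK, hs⟩ := sieve_long
  refine ⟨K, hK, ?_⟩
  intro J X N h h' hYX hXN
  have hY8 := Y8_ge J
  have hYX1 : Y8 J ≤ X := (Nat.le_self_pow (by norm_num) _).trans hYX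
  have hmain := hs J 1 0 X one_pos (by omega) hYX (x4 h h') (x4_bounds h h') (x4_per h h')
    (fun l hl hl1 => absurd (Nat.dvd_one.1 hl1) hl.one_lt.ne') (xbar4_le h h') N hXN
  have hf : (Ioc X N).filter (fun n => n ≡ 0 [MOD 1]) = Ioc X N := by
    apply filter_true_of_mem
    intro n _
    exact Nat.modEq_one
  rw [hf] at hmain
  have hterm : ∀ n, 0 ≤ ∏ l ∈ pr 8 J, (1 - x4 h h' l n) := fun n =>
    prod_nonneg fun l _ => by linarith [(x4_bounds h h' l n).2]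
  set G := (Q4 N h h').filter (fun n => X < n ∧ Y8 J < n - h ∧ Y8 J < n - h') with hG
  have h1 : ((Q4 N h h').card : ℝ) ≤ 3 * X + ∑ n ∈ Ioc X N, ∏ l ∈ pr 8 J, (1 - x4 h h' l n) := by
    have hsplit : Q4 N h h' ⊆ (Ioc 0 X ∪ (Ioc 0 N).filter (fun n => 0 < n - h ∧ n - h ≤ Y8 J)) ∪
        ((Ioc 0 N).filter (fun n => 0 < n - h' ∧ n - h' ≤ Y8 J) ∪ G) := by
      intro n hn
      have hn' := mem_Q4.1 hn
      have p1 := hn'.2.1.pos
      have p2 := hn'.2.2.2.1.pos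
      rw [mem_union, mem_union, mem_union, hG, mem_filter, mem_filter, mem_filter, mem_Ioc, mem_Ioc]
      by_cases hX : X < n
      · by_cases c1 : Y8 J < n - h
        · by_cases c2 : Y8 J < n - h'
          · exact Or.inr (Or.inr ⟨hn, hX, c1, c2⟩)
          · exact Or.inr (Or.inl ⟨hn'.1, p2, by omega⟩)
        · exact Or.inl (Or.inr ⟨hn'.1, p1, by omega⟩)
      · exact Or.inl (Or.inl ⟨hn'.1.1, by omega⟩)
    have h2 : (Q4 N h h').card ≤ 3 * X + G.card := by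
      have e1 := card_le_card hsplit
      have e2 := card_union_le (Ioc 0 X ∪ (Ioc 0 N).filter (fun n => 0 < n - h ∧ n - h ≤ Y8 J))
        ((Ioc 0 N).filter (fun n => 0 < n - h' ∧ n - h' ≤ Y8 J) ∪ G)
      have e3 := card_union_le (Ioc 0 X) ((Ioc 0 N).filter (fun n => 0 < n - h ∧ n - h ≤ Y8 J))
      have e4 := card_union_le ((Ioc 0 N).filter (fun n => 0 < n - h' ∧ n - h' ≤ Y8 J)) G
      have e5 := card_near N h (Y8 J)
      have e6 := card_near N h' (Y8 J)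
      rw [Nat.card_Ioc] at e3
      omega
    have h3 : (G.card : ℝ) ≤ ∑ n ∈ Ioc X N, ∏ l ∈ pr 8 J, (1 - x4 h h' l n) := by
      calc (G.card : ℝ) = ∑ n ∈ G, (1 : ℝ) := by simp
        _ = ∑ n ∈ G, ∏ l ∈ pr 8 J, (1 - x4 h h' l n) := by
            refine sum_congr rfl fun n hn => ?_
            rw [hG, mem_filter, mem_Q4] at hn
            rw [prod_one J h h' n hn.2.2.1 hn.2.2.2 hn.1.2]
        _ ≤ _ := by
            apply sum_le_sum_of_subset_of_nonneg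
            · intro n hn
              rw [hG, mem_filter, mem_Q4] at hn
              rw [mem_Ioc]
              exact ⟨hn.2.1, hn.1.1.2⟩
            · intro n _ _; exact hterm n
    have h4 : ((Q4 N h h').card : ℝ) ≤ 3 * X + G.card := by exact_mod_cast h2
    linarith
  refine h1.trans ?_
  have : K * ((N : ℝ) / ((1 : ℕ) : ℝ)) = K * N := by norm_num
  rw [this] at hmain
  linarith

/-- the choice of the sieving limit -/
lemma scale_facts : ∃ N₀ : ℕ, ∀ N : ℕ, N₀ ≤ N → ∃ J : ℕ, Y8 J ^ 12 ≤ Nat.sqrt N ∧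
    Nat.sqrt N ≤ N ∧ Real.log N / 72 ≤ Real.log (Y8 J) ∧ 1 ≤ Real.log N ∧
    (Nat.sqrt N : ℝ) ≤ N / Real.log N ^ 4 := by
  have h3 := (Real.isLittleO_pow_log_id_atTop (n := 8)).bound (c := 1) (by norm_num)
  rw [eventually_atTop] at h3
  obtain ⟨A, hA⟩ := h3
  refine ⟨max ((8 ^ 12) ^ 2) (⌈A⌉₊ + 1), fun N hN => ?_⟩
  have hN1 : (8 ^ 12) ^ 2 ≤ N := (le_max_left _ _).trans hN
  have hNA : A ≤ (N : ℝ) := by
    have h2 : ⌈A⌉₊ + 1 ≤ N := (le_max_right _ _).trans hN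
    have h3 : (⌈A⌉₊ : ℝ) + 1 ≤ N := by exact_mod_cast h2
    have h4 := Nat.le_ceil A
    linarith
  have hX : 8 ^ 12 ≤ Nat.sqrt N := by
    rw [Nat.le_sqrt, ← pow_two]; exact hN1
  obtain ⟨J, hJ1, hJ2⟩ := exists_J8 (Nat.sqrt N) hX
  have hY8 := Y8_ge J
  have hN0 : (0 : ℝ) < N := by exact_mod_cast (by omega : 0 < N)
  have hN8 : (8 : ℝ) ≤ N := by exact_mod_cast (by omega : 8 ≤ N)
  have hY0 : (0 : ℝ) < Y8 J := by exact_mod_cast (by omega : 0 < Y8 J)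
  have hlogN : 1 ≤ Real.log N := by
    rw [Real.le_log_iff_exp_le hN0]
    have := Real.exp_one_lt_d9
    linarith
  refine ⟨J, hJ1, Nat.sqrt_le_self N, ?_, hlogN, ?_⟩
  · have h1 : N ≤ Y8 J ^ 72 := by
      have h2 : N < (Nat.sqrt N + 1) ^ 2 := Nat.lt_succ_sqrt' N
      have h3 : Nat.sqrt N + 1 ≤ Y8 J ^ 24 := hJ2
      calc N ≤ (Nat.sqrt N + 1) ^ 2 := h2.le
        _ ≤ (Y8 J ^ 24) ^ 2 := Nat.pow_le_pow_left h3 2
        _ = Y8 J ^ 48 := by rw [← pow_mul]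
        _ ≤ Y8 J ^ 72 := Nat.pow_le_pow_right (by omega) (by norm_num)
    have h2 : Real.log N ≤ 72 * Real.log (Y8 J) := by
      calc Real.log N ≤ Real.log ((Y8 J : ℝ) ^ 72) := by
            apply Real.log_le_log hN0
            exact_mod_cast h1
        _ = 72 * Real.log (Y8 J) := by rw [Real.log_pow]; norm_num
    linarith
  · have h1 := hA N hNA
    rw [Real.norm_of_nonneg (by positivity), id, Real.norm_of_nonneg hN0.le, one_mul] at h1
    rw [le_div_iff₀ (by positivity)]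
    have h2 : (Nat.sqrt N : ℝ) ^ 2 ≤ N := by exact_mod_cast Nat.sqrt_le' N
    have h3 : ((Nat.sqrt N : ℝ) * Real.log N ^ 4) ^ 2 ≤ (N : ℝ) ^ 2 := by
      calc ((Nat.sqrt N : ℝ) * Real.log N ^ 4) ^ 2 = (Nat.sqrt N : ℝ) ^ 2 * Real.log N ^ 8 := by ring
        _ ≤ (N : ℝ) * N := by gcongr
        _ = (N : ℝ) ^ 2 := by ring
    exact le_of_sq_le_sq h3 hN0.le

theorem cnt4 : ∃ C : ℝ, 0 < C ∧ ∃ N₀ : ℕ, ∀ N : ℕ, N₀ ≤ N → ∀ h' h : ℕ, 0 < h' → h' < h →
    ((Q4 N h h').card : ℝ) ≤ C * (N / Real.log N ^ 4) *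
      Real.exp (4 * (hh h + hh h' + (hh (h - h') + hh (h + h')))) := by
  obtain ⟨K, hK, hQ⟩ := Q4_le
  obtain ⟨N₀, hN₀⟩ := scale_facts
  obtain ⟨C2, hC2, hm2⟩ := mertens2
  refine ⟨3 + K * (72 ^ 4 * Real.exp (4 * S1 8 + 4 * C2)), by positivity, N₀, ?_⟩
  intro N hN h' h hh0 hlt
  obtain ⟨J, hJ1, hXN, hlog, hlog1, hsq⟩ := hN₀ N hN
  have hY8 := Y8_ge J
  have hb := hQ J (Nat.sqrt N) N h h' hJ1 hXN
  have hs := sum_xbar4 J h h' hh0 hlt
  have hS := (abs_le.mp (hm2 (Y8 J) (by omega))).1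
  have hlY : 0 < Real.log (Y8 J) := Real.log_pos (by exact_mod_cast (by omega : 1 < Y8 J))
  set T := hh h + hh h' + (hh (h - h') + hh (h + h')) with hT
  have hT0 : 0 ≤ T := by
    have e1 := hh_nonneg h
    have e2 := hh_nonneg h'
    have e3 := hh_nonneg (h - h')
    have e4 := hh_nonneg (h + h')
    linarith
  have hexp : Real.exp (-∑ p ∈ pr 8 J, xbar (x4 h h') 1 p)
      ≤ 72 ^ 4 * Real.exp (4 * S1 8 + 4 * C2) / Real.log N ^ 4 * Real.exp (4 * T) := by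
    have e1 : Real.exp (-∑ p ∈ pr 8 J, xbar (x4 h h') 1 p)
        ≤ Real.exp ((4 * S1 8 + 4 * C2) - 4 * Real.log (Real.log (Y8 J)) + 4 * T) :=
      Real.exp_le_exp.mpr (by linarith)
    refine e1.trans ?_
    rw [Real.exp_add ((4 * S1 8 + 4 * C2) - 4 * Real.log (Real.log (Y8 J))) (4 * T), Real.exp_sub]
    have e2 : Real.exp (4 * Real.log (Real.log (Y8 J))) = Real.log (Y8 J) ^ 4 := by
      rw [show (4 : ℝ) * Real.log (Real.log (Y8 J)) = ((4 : ℕ) : ℝ) * Real.log (Real.log (Y8 J)) by norm_num,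
        Real.exp_nat_mul, Real.exp_log hlY]
    rw [e2]
    have e3 : Real.log N ^ 4 / 72 ^ 4 ≤ Real.log (Y8 J) ^ 4 := by
      calc Real.log N ^ 4 / 72 ^ 4 = (Real.log N / 72) ^ 4 := by ring
        _ ≤ Real.log (Y8 J) ^ 4 := by gcongr
    have e4 : Real.exp (4 * S1 8 + 4 * C2) / Real.log (Y8 J) ^ 4
        ≤ 72 ^ 4 * Real.exp (4 * S1 8 + 4 * C2) / Real.log N ^ 4 := by
      rw [div_le_div_iff₀ (by positivity) (by positivity)]
      have e5 : Real.log N ^ 4 ≤ 72 ^ 4 * Real.log (Y8 J) ^ 4 := by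
        rw [div_le_iff₀ (by norm_num)] at e3
        linarith
      have e6 := Real.exp_pos (4 * S1 8 + 4 * C2)
      nlinarith
    gcongr
  have hN0 : (0 : ℝ) ≤ N := by positivity
  have hE : 1 ≤ Real.exp (4 * T) := Real.one_le_exp (by positivity)
  have hNL : (0 : ℝ) ≤ N / Real.log N ^ 4 := by positivity
  calc ((Q4 N h h').card : ℝ) ≤ _ := hb
    _ ≤ 3 * (N / Real.log N ^ 4 * Real.exp (4 * T)) + K * N *
        (72 ^ 4 * Real.exp (4 * S1 8 + 4 * C2) / Real.log N ^ 4 * Real.exp (4 * T)) := by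
        have e7 : (Nat.sqrt N : ℝ) ≤ N / Real.log N ^ 4 * Real.exp (4 * T) :=
          hsq.trans (le_mul_of_one_le_right hNL hE)
        gcongr
    _ = _ := by ring

theorem cnt2 : ∃ C : ℝ, 0 < C ∧ ∃ N₀ : ℕ, ∀ N : ℕ, N₀ ≤ N → ∀ h : ℕ, 0 < h →
    ((Q4 N h h).card : ℝ) ≤ C * (N / Real.log N ^ 2) *
      Real.exp (2 * hh h) := by
  obtain ⟨K, hK, hQ⟩ := Q4_le
  obtain ⟨N₀, hN₀⟩ := scale_facts
  obtain ⟨C2, hC2, hm2⟩ := mertens2
  refine ⟨3 + K * (72 ^ 2 * Real.exp (2 * S1 8 + 2 * C2)), by positivity, N₀, ?_⟩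
  intro N hN h hh0
  obtain ⟨J, hJ1, hXN, hlog, hlog1, hsq⟩ := hN₀ N hN
  have hY8 := Y8_ge J
  have hb := hQ J (Nat.sqrt N) N h h hJ1 hXN
  have hs := sum_xbar2 J h hh0
  have hS := (abs_le.mp (hm2 (Y8 J) (by omega))).1
  have hlY : 0 < Real.log (Y8 J) := Real.log_pos (by exact_mod_cast (by omega : 1 < Y8 J))
  set T := hh h with hT
  have hT0 : 0 ≤ T := hh_nonneg h
  have hexp : Real.exp (-∑ p ∈ pr 8 J, xbar (x4 h h) 1 p)
      ≤ 72 ^ 2 * Real.exp (2 * S1 8 + 2 * C2) / Real.log N ^ 2 * Real.exp (2 * T) := by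
    have e1 : Real.exp (-∑ p ∈ pr 8 J, xbar (x4 h h) 1 p)
        ≤ Real.exp ((2 * S1 8 + 2 * C2) - 2 * Real.log (Real.log (Y8 J)) + 2 * T) :=
      Real.exp_le_exp.mpr (by linarith)
    refine e1.trans ?_
    rw [Real.exp_add ((2 * S1 8 + 2 * C2) - 2 * Real.log (Real.log (Y8 J))) (2 * T), Real.exp_sub]
    have e2 : Real.exp (2 * Real.log (Real.log (Y8 J))) = Real.log (Y8 J) ^ 2 := by
      rw [show (2 : ℝ) * Real.log (Real.log (Y8 J)) = ((2 : ℕ) : ℝ) * Real.log (Real.log (Y8 J)) by norm_num,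
        Real.exp_nat_mul, Real.exp_log hlY]
    rw [e2]
    have e3 : Real.log N ^ 2 / 72 ^ 2 ≤ Real.log (Y8 J) ^ 2 := by
      calc Real.log N ^ 2 / 72 ^ 2 = (Real.log N / 72) ^ 2 := by ring
        _ ≤ Real.log (Y8 J) ^ 2 := by gcongr
    have e4 : Real.exp (2 * S1 8 + 2 * C2) / Real.log (Y8 J) ^ 2
        ≤ 72 ^ 2 * Real.exp (2 * S1 8 + 2 * C2) / Real.log N ^ 2 := by
      rw [div_le_div_iff₀ (by positivity) (by positivity)]
      have e5 : Real.log N ^ 2 ≤ 72 ^ 2 * Real.log (Y8 J) ^ 2 := by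
        rw [div_le_iff₀ (by norm_num)] at e3
        linarith
      have e6 := Real.exp_pos (2 * S1 8 + 2 * C2)
      nlinarith
    gcongr
  have hN0 : (0 : ℝ) ≤ N := by positivity
  have hE : 1 ≤ Real.exp (2 * T) := Real.one_le_exp (by positivity)
  have hNL : (0 : ℝ) ≤ N / Real.log N ^ 2 := by positivity
  have hsq2 : (Nat.sqrt N : ℝ) ≤ N / Real.log N ^ 2 := by
    refine hsq.trans ?_
    apply div_le_div_of_nonneg_left hN0 (by positivity)
    exact pow_le_pow_right₀ hlog1 (by norm_num)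
  calc ((Q4 N h h).card : ℝ) ≤ _ := hb
    _ ≤ 3 * (N / Real.log N ^ 2 * Real.exp (2 * T)) + K * N *
        (72 ^ 2 * Real.exp (2 * S1 8 + 2 * C2) / Real.log N ^ 2 * Real.exp (2 * T)) := by
        have e7 : (Nat.sqrt N : ℝ) ≤ N / Real.log N ^ 2 * Real.exp (2 * T) :=
          hsq2.trans (le_mul_of_one_le_right hNL hE)
        gcongr
    _ = _ := by ring

end Pool.Agent.Gold42
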