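import Mathlib
import Pool.Agent.Gold42.PairCount

/-!
# First and second moments of the number of symmetric prime pairs
-/

namespace Pool.Agent.Gold42

open Finset Pool.Agent.E456 Filter

/-- indicator of `n - h`, `n + h` both prime -/
noncomputable def ind (n h : ℕ) : ℝ := if (n - h).Prime ∧ (n + h).Prime then 1 else 0

/-- number of `h ≤ H` with `n - h`, `n + h` both prime -/
noncomputable def rH (H n : ℕ) : ℝ := ∑ h ∈ Ioc 0 H, ind n h

lemma ind_nonneg (n h : ℕ) : 0 ≤ ind n h := by unfold ind; split_ifs <;> norm_num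

lemma rH_nonneg (H n : ℕ) : 0 ≤ rH H n := sum_nonneg fun h _ => ind_nonneg n h

lemma sum_ind_mul (N h h' : ℕ) : ∑ n ∈ Ioc 0 N, ind n h * ind n h' = ((Q4 N h h').card : ℝ) := by
  unfold Q4 ind
  rw [card_filter]
  push_cast
  refine sum_congr rfl fun n _ => ?_
  by_cases h1 : (n - h).Prime <;> by_cases h2 : (n + h).Prime <;>
    by_cases h3 : (n - h').Prime <;> by_cases h4 : (n + h').Prime <;> simp [h1, h2, h3, h4]

lemma sum_ind (N h : ℕ) : ∑ n ∈ Ioc 0 N, ind n h = ((Q4 N h h).card : ℝ) := by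
  rw [← sum_ind_mul]
  refine sum_congr rfl fun n _ => ?_
  unfold ind; split_ifs <;> norm_num

lemma Q4_symm (N h h' : ℕ) : Q4 N h h' = Q4 N h' h := by
  ext n
  rw [mem_Q4, mem_Q4]
  tauto

lemma sum_inj_le (s t : Finset ℕ) (g : ℕ → ℕ) (hg : ∀ i ∈ s, g i ∈ t)
    (hinj : Set.InjOn g s) (f : ℕ → ℝ) (hf : ∀ k, 0 ≤ f k) :
    ∑ i ∈ s, f (g i) ≤ ∑ k ∈ t, f k := by
  classical
  rw [← sum_image (f := f) hinj]
  apply sum_le_sum_of_subset_of_nonneg
  · intro k hk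
    rw [mem_image] at hk
    obtain ⟨i, hi, rfl⟩ := hk
    exact hg i hi
  · intro k _ _; exact hf k

/-- the sum of the singular factors over pairs -/
lemma sing_sum : ∃ C : ℝ, 0 < C ∧ ∀ H : ℕ, ∑ h ∈ Ioc 0 H, ∑ h' ∈ (Ioc 0 H).filter (fun h' => h' < h),
    Real.exp (4 * (hh h + hh h' + (hh (h - h') + hh (h + h')))) ≤ C * (H : ℝ) ^ 2 := by
  set E : ℝ := Real.exp (2 * (16 * Real.exp 16)) with hE
  have hE0 : 0 < E := Real.exp_pos _
  refine ⟨2 * E, by positivity, fun H => ?_⟩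
  have hsum : ∀ K : ℕ, ∑ k ∈ Ioc 0 K, Real.exp (16 * hh k) ≤ K * E := fun K =>
    sum_exp_hh 16 (by norm_num) K
  have hamgm : ∀ a b c d : ℝ, Real.exp (4 * (a + b + (c + d)))
      ≤ (Real.exp (16 * a) + Real.exp (16 * b) + (Real.exp (16 * c) + Real.exp (16 * d))) / 4 := by
    intro a b c d
    have h2 : ∀ x y : ℝ, Real.exp (x + y) ≤ (Real.exp (2 * x) + Real.exp (2 * y)) / 2 := by
      intro x y
      have e1 : Real.exp (2 * x) = Real.exp x ^ 2 := by rw [← Real.exp_nat_mul]; norm_num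
      have e2 : Real.exp (2 * y) = Real.exp y ^ 2 := by rw [← Real.exp_nat_mul]; norm_num
      rw [Real.exp_add, e1, e2]
      nlinarith [sq_nonneg (Real.exp x - Real.exp y)]
    have h3 := h2 (4 * (a + b)) (4 * (c + d))
    have h4 := h2 (8 * a) (8 * b)
    have h5 := h2 (8 * c) (8 * d)
    have e1 : 4 * (a + b + (c + d)) = 4 * (a + b) + 4 * (c + d) := by ring
    have e2 : 2 * (4 * (a + b)) = 8 * a + 8 * b := by ring
    have e3 : 2 * (4 * (c + d)) = 8 * c + 8 * d := by ring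
    have e4 : ∀ x : ℝ, 2 * (8 * x) = 16 * x := fun x => by ring
    rw [e2, e3] at h3
    rw [e4, e4] at h4 h5
    rw [e1]
    linarith
  have hinner : ∀ h ∈ Ioc 0 H, ∑ h' ∈ (Ioc 0 H).filter (fun h' => h' < h),
      Real.exp (4 * (hh h + hh h' + (hh (h - h') + hh (h + h'))))
      ≤ (H * Real.exp (16 * hh h) + H * E + (H * E + (2 * H : ℕ) * E)) / 4 := by
    intro h hh1
    rw [mem_Ioc] at hh1
    have c1 : ((((Ioc 0 H).filter (fun h' => h' < h)).card : ℕ) : ℝ) ≤ H := by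
      have := card_filter_le (Ioc 0 H) (fun h' => h' < h)
      rw [Nat.card_Ioc] at this
      exact_mod_cast this
    have s1 : ∑ h' ∈ (Ioc 0 H).filter (fun h' => h' < h), Real.exp (16 * hh h)
        ≤ H * Real.exp (16 * hh h) := by
      rw [sum_const, nsmul_eq_mul]
      gcongr
    have s2 : ∑ h' ∈ (Ioc 0 H).filter (fun h' => h' < h), Real.exp (16 * hh h') ≤ H * E := by
      refine le_trans ?_ (hsum H)
      exact sum_le_sum_of_subset_of_nonneg (filter_subset _ _) fun k _ _ => (Real.exp_pos _).le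
    have s3 : ∑ h' ∈ (Ioc 0 H).filter (fun h' => h' < h), Real.exp (16 * hh (h - h')) ≤ H * E := by
      refine le_trans ?_ (hsum H)
      apply sum_inj_le _ _ (fun h' => h - h') _ _ (fun k => Real.exp (16 * hh k))
        (fun k => (Real.exp_pos _).le)
      · intro h' hh'
        rw [mem_filter, mem_Ioc] at hh'
        rw [mem_Ioc]
        omega
      · intro i hi j hj hij
        rw [mem_coe, mem_filter, mem_Ioc] at hi hj
        simp only at hij
        omega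
    have s4 : ∑ h' ∈ (Ioc 0 H).filter (fun h' => h' < h), Real.exp (16 * hh (h + h'))
        ≤ (2 * H : ℕ) * E := by
      refine le_trans ?_ (hsum (2 * H))
      apply sum_inj_le _ _ (fun h' => h + h') _ _ (fun k => Real.exp (16 * hh k))
        (fun k => (Real.exp_pos _).le)
      · intro h' hh'
        rw [mem_filter, mem_Ioc] at hh'
        rw [mem_Ioc]
        omega
      · intro i hi j hj hij
        simp only at hij
        omega
    calc ∑ h' ∈ (Ioc 0 H).filter (fun h' => h' < h),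
          Real.exp (4 * (hh h + hh h' + (hh (h - h') + hh (h + h'))))
        ≤ ∑ h' ∈ (Ioc 0 H).filter (fun h' => h' < h),
          (Real.exp (16 * hh h) + Real.exp (16 * hh h') +
            (Real.exp (16 * hh (h - h')) + Real.exp (16 * hh (h + h')))) / 4 :=
          sum_le_sum fun h' _ => hamgm _ _ _ _
      _ ≤ _ := by
          rw [← sum_div, sum_add_distrib, sum_add_distrib, sum_add_distrib]
          gcongr
  calc ∑ h ∈ Ioc 0 H, ∑ h' ∈ (Ioc 0 H).filter (fun h' => h' < h),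
        Real.exp (4 * (hh h + hh h' + (hh (h - h') + hh (h + h'))))
      ≤ ∑ h ∈ Ioc 0 H, (H * Real.exp (16 * hh h) + H * E + (H * E + (2 * H : ℕ) * E)) / 4 :=
        sum_le_sum hinner
    _ = (H * ∑ h ∈ Ioc 0 H, Real.exp (16 * hh h) + H * (H * E + (H * E + (2 * H : ℕ) * E))) / 4 := by
        rw [← sum_div]
        congr 1
        simp only [add_assoc]
        rw [sum_add_distrib, ← mul_sum, sum_const, Nat.card_Ioc, nsmul_eq_mul, Nat.sub_zero]
    _ ≤ (H * (H * E) + H * (H * E + (H * E + (2 * H : ℕ) * E))) / 4 := by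
        gcongr
        exact hsum H
    _ = 5 / 4 * E * (H : ℝ) ^ 2 := by push_cast; ring
    _ ≤ 2 * E * (H : ℝ) ^ 2 := by
        gcongr
        norm_num

/-- the upper bound for the first moment -/
theorem first_upper : ∃ C : ℝ, 0 < C ∧ ∃ N₀ : ℕ, ∀ N : ℕ, N₀ ≤ N → ∀ H : ℕ,
    ∑ n ∈ Ioc 0 N, rH H n ≤ C * (N * H / Real.log N ^ 2) := by
  obtain ⟨C, hC, N₀, hc⟩ := cnt2
  refine ⟨C * Real.exp (2 * (2 * Real.exp 2)), by positivity, N₀, fun N hN H => ?_⟩
  unfold rH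
  rw [sum_comm]
  calc ∑ h ∈ Ioc 0 H, ∑ n ∈ Ioc 0 N, ind n h
      = ∑ h ∈ Ioc 0 H, ((Q4 N h h).card : ℝ) := sum_congr rfl fun h _ => sum_ind N h
    _ ≤ ∑ h ∈ Ioc 0 H, C * (N / Real.log N ^ 2) * Real.exp (2 * hh h) := by
        refine sum_le_sum fun h hh1 => ?_
        rw [mem_Ioc] at hh1
        exact hc N hN h hh1.1
    _ = C * (N / Real.log N ^ 2) * ∑ h ∈ Ioc 0 H, Real.exp (2 * hh h) := by rw [mul_sum]
    _ ≤ C * (N / Real.log N ^ 2) * (H * Real.exp (2 * (2 * Real.exp 2))) := by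
        gcongr
        exact sum_exp_hh 2 (by norm_num) H
    _ = _ := by ring

/-- the upper bound for the second moment -/
theorem second_upper : ∃ C : ℝ, 0 < C ∧ ∃ N₀ : ℕ, ∀ N : ℕ, N₀ ≤ N → ∀ H : ℕ,
    ∑ n ∈ Ioc 0 N, rH H n ^ 2
      ≤ C * (N * H / Real.log N ^ 2 + N * H ^ 2 / Real.log N ^ 4) := by
  obtain ⟨C1, hC1, N₁, hf⟩ := first_upper
  obtain ⟨C4, hC4, N₄, hc⟩ := cnt4
  obtain ⟨Cs, hCs, hsing⟩ := sing_sum
  refine ⟨C1 + 2 * (C4 * Cs), by positivity, max N₁ N₄, fun N hN H => ?_⟩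
  have hN1 : N₁ ≤ N := (le_max_left _ _).trans hN
  have hN4 : N₄ ≤ N := (le_max_right _ _).trans hN
  have e1 : ∑ n ∈ Ioc 0 N, rH H n ^ 2
      = ∑ h ∈ Ioc 0 H, ∑ h' ∈ Ioc 0 H, ((Q4 N h h').card : ℝ) := by
    calc ∑ n ∈ Ioc 0 N, rH H n ^ 2
        = ∑ n ∈ Ioc 0 N, ∑ h ∈ Ioc 0 H, ∑ h' ∈ Ioc 0 H, ind n h * ind n h' := by
          refine sum_congr rfl fun n _ => ?_
          unfold rH
          rw [pow_two, sum_mul_sum]
      _ = ∑ h ∈ Ioc 0 H, ∑ h' ∈ Ioc 0 H, ∑ n ∈ Ioc 0 N, ind n h * ind n h' := by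
          rw [sum_comm]
          refine sum_congr rfl fun h _ => ?_
          rw [sum_comm]
      _ = _ := sum_congr rfl fun h _ => sum_congr rfl fun h' _ => sum_ind_mul N h h'
  have hsplit : ∑ h ∈ Ioc 0 H, ∑ h' ∈ Ioc 0 H, ((Q4 N h h').card : ℝ)
      = ∑ h ∈ Ioc 0 H, ((Q4 N h h).card : ℝ)
        + (∑ h ∈ Ioc 0 H, ∑ h' ∈ (Ioc 0 H).filter (fun h' => h' < h), ((Q4 N h h').card : ℝ)
        + ∑ h ∈ Ioc 0 H, ∑ h' ∈ (Ioc 0 H).filter (fun h' => h < h'), ((Q4 N h h').card : ℝ)) := by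
    rw [← sum_add_distrib, ← sum_add_distrib]
    refine sum_congr rfl fun h hh1 => ?_
    have h1 : ((Q4 N h h).card : ℝ) = ∑ h' ∈ Ioc 0 H, (if h' = h then ((Q4 N h h').card : ℝ) else 0) := by
      rw [sum_ite_eq' (Ioc 0 H) h, if_pos hh1]
    rw [h1, sum_filter, sum_filter, ← sum_add_distrib, ← sum_add_distrib]
    refine sum_congr rfl fun h' _ => ?_
    rcases lt_trichotomy h' h with hlt | heq | hgt
    · rw [if_neg hlt.ne, if_pos hlt, if_neg (by omega)]; ring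
    · rw [if_pos heq, if_neg (by omega), if_neg (by omega)]; ring
    · rw [if_neg hgt.ne', if_neg (by omega), if_pos hgt]; ring
  have hswap : ∑ h ∈ Ioc 0 H, ∑ h' ∈ (Ioc 0 H).filter (fun h' => h < h'), ((Q4 N h h').card : ℝ)
      = ∑ h ∈ Ioc 0 H, ∑ h' ∈ (Ioc 0 H).filter (fun h' => h' < h), ((Q4 N h h').card : ℝ) := by
    simp only [sum_filter]
    rw [sum_comm]
    refine sum_congr rfl fun h _ => sum_congr rfl fun h' _ => ?_
    rw [Q4_symm N h' h]
  have hlow : ∑ h ∈ Ioc 0 H, ∑ h' ∈ (Ioc 0 H).filter (fun h' => h' < h), ((Q4 N h h').card : ℝ)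
      ≤ C4 * (N / Real.log N ^ 4) * (Cs * (H : ℝ) ^ 2) := by
    calc ∑ h ∈ Ioc 0 H, ∑ h' ∈ (Ioc 0 H).filter (fun h' => h' < h), ((Q4 N h h').card : ℝ)
        ≤ ∑ h ∈ Ioc 0 H, ∑ h' ∈ (Ioc 0 H).filter (fun h' => h' < h),
          C4 * (N / Real.log N ^ 4) *
            Real.exp (4 * (hh h + hh h' + (hh (h - h') + hh (h + h')))) := by
          refine sum_le_sum fun h hh1 => sum_le_sum fun h' hh2 => ?_
          rw [mem_Ioc] at hh1
          rw [mem_filter, mem_Ioc] at hh2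
          exact hc N hN4 h' h hh2.1.1 hh2.2
      _ = C4 * (N / Real.log N ^ 4) * ∑ h ∈ Ioc 0 H, ∑ h' ∈ (Ioc 0 H).filter (fun h' => h' < h),
            Real.exp (4 * (hh h + hh h' + (hh (h - h') + hh (h + h')))) := by
          rw [mul_sum]
          refine sum_congr rfl fun h _ => ?_
          rw [mul_sum]
      _ ≤ _ := by
          gcongr
          exact hsing H
  have hdiag : ∑ h ∈ Ioc 0 H, ((Q4 N h h).card : ℝ) ≤ C1 * (N * H / Real.log N ^ 2) := by
    have := hf N hN1 H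
    unfold rH at this
    rw [sum_comm] at this
    simpa only [sum_ind] using this
  rw [e1, hsplit, hswap]
  have p1 : 0 ≤ (N : ℝ) * H / Real.log N ^ 2 := by positivity
  have p2 : 0 ≤ (N : ℝ) * H ^ 2 / Real.log N ^ 4 := by positivity
  calc ∑ h ∈ Ioc 0 H, ((Q4 N h h).card : ℝ)
        + (∑ h ∈ Ioc 0 H, ∑ h' ∈ (Ioc 0 H).filter (fun h' => h' < h), ((Q4 N h h').card : ℝ)
        + ∑ h ∈ Ioc 0 H, ∑ h' ∈ (Ioc 0 H).filter (fun h' => h' < h), ((Q4 N h h').card : ℝ))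
      ≤ C1 * (N * H / Real.log N ^ 2) + (C4 * (N / Real.log N ^ 4) * (Cs * (H : ℝ) ^ 2)
        + C4 * (N / Real.log N ^ 4) * (Cs * (H : ℝ) ^ 2)) := by gcongr
    _ = C1 * (N * H / Real.log N ^ 2) + 2 * (C4 * Cs) * (N * H ^ 2 / Real.log N ^ 4) := by ring
    _ ≤ (C1 + 2 * (C4 * Cs)) * (N * H / Real.log N ^ 2)
        + (C1 + 2 * (C4 * Cs)) * (N * H ^ 2 / Real.log N ^ 4) := by
        gcongr
        · linarith [mul_pos hC4 hCs]
        · linarith
    _ = _ := by ring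

end Pool.Agent.Gold42
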