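import Mathlib
import Pool.Agent.Gold42.Moments

/-!
# Lower bound for the number of pairs of primes at distance at most `2 H`
-/

namespace Pool.Agent.Gold42

open Finset Pool.Agent.E456 Filter

/-- odd primes up to `N` -/
def OP (N : ℕ) : Finset ℕ := (Ioc 2 N).filter Nat.Prime

lemma mem_OP {N p : ℕ} : p ∈ OP N ↔ (2 < p ∧ p ≤ N) ∧ p.Prime := by
  unfold OP; rw [mem_filter, mem_Ioc]

lemma OP_card : ∃ N₀ : ℕ, ∀ N : ℕ, N₀ ≤ N → (N : ℝ) / (2 * Real.log N) ≤ ((OP N).card : ℝ) := by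
  have h1 := (isLittleO_log_rpow_atTop (r := (1 : ℝ)) (by norm_num)).bound
    (c := 1 / 20) (by norm_num)
  rw [Filter.eventually_atTop] at h1
  obtain ⟨A, hA⟩ := h1
  refine ⟨max 16 (⌈A⌉₊ + 1), fun x hx => ?_⟩
  have hx16 : 16 ≤ x := (le_max_left _ _).trans hx
  have hxA : A ≤ (x : ℝ) := by
    have h2 : ⌈A⌉₊ + 1 ≤ x := (le_max_right _ _).trans hx
    have h3 : (⌈A⌉₊ : ℝ) + 1 ≤ x := by exact_mod_cast h2
    have h4 := Nat.le_ceil A
    linarith
  have hxR : (16 : ℝ) ≤ x := by exact_mod_cast hx16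
  have e1 := hA x hxA
  have e2 := hA (x + 1) (by linarith)
  have hl1 : 0 ≤ Real.log x := Real.log_nonneg (by linarith)
  have hl2 : 0 ≤ Real.log (x + 1) := Real.log_nonneg (by linarith)
  rw [Real.rpow_one, Real.norm_of_nonneg hl1, Real.norm_of_nonneg (by linarith)] at e1
  rw [Real.rpow_one, Real.norm_of_nonneg hl2, Real.norm_of_nonneg (by linarith)] at e2
  have hpi := Chebyshev.pi_ge x
  have hlog2 := Real.log_two_gt_d9
  set L := Real.log x with hLdef
  have hL0 : 0 < L := Real.log_pos (by linarith)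
  have h5 : (x : ℝ) / (2 * L) + 1 ≤ x.primeCounting := by
    refine le_trans ?_ hpi
    rw [le_div_iff₀ hL0, add_mul, one_mul]
    have e3 : (x : ℝ) / (2 * L) * L = x / 2 := by field_simp
    rw [e3]
    nlinarith
  have h6 : x.primeCounting ≤ (OP x).card + 1 := by
    rw [Nat.primeCounting, Nat.primeCounting', Nat.count_eq_card_filter_range]
    have hsub : (range (x + 1)).filter Nat.Prime ⊆ OP x ∪ {2} := by
      intro q hq
      rw [mem_filter, mem_range] at hq
      rw [mem_union, mem_OP, mem_singleton]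
      have := hq.2.two_le
      by_cases h : q = 2
      · exact Or.inr h
      · exact Or.inl ⟨⟨by omega, by omega⟩, hq.2⟩
    exact (card_le_card hsub).trans ((card_union_le _ _).trans (by simp))
  have h7 : (x.primeCounting : ℝ) ≤ (OP x).card + 1 := by exact_mod_cast h6
  linarith

/-- pairs of odd primes in the same block of length `2 H` -/
def PE (N H : ℕ) : Finset (ℕ × ℕ) :=
  (OP N ×ˢ OP N).filter (fun q => q.1 / (2 * H) = q.2 / (2 * H))

lemma sq_le (N H : ℕ) :
    ((OP N).card : ℝ) ^ 2 ≤ ((N / (2 * H) + 1 : ℕ) : ℝ) * ((PE N H).card : ℝ) := by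
  classical
  have hmaps : ∀ p ∈ OP N, p / (2 * H) ∈ range (N / (2 * H) + 1) := by
    intro p hp
    rw [mem_OP] at hp
    rw [mem_range]
    exact Nat.lt_succ_of_le (Nat.div_le_div_right hp.1.2)
  have h1 : (OP N).card = ∑ k ∈ range (N / (2 * H) + 1),
      ((OP N).filter (fun p => p / (2 * H) = k)).card :=
    card_eq_sum_card_fiberwise (fun p hp => mem_coe.2 (hmaps p hp))
  have h2 : (PE N H).card = ∑ k ∈ range (N / (2 * H) + 1),
      ((OP N).filter (fun p => p / (2 * H) = k)).card ^ 2 := by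
    have h3 : (PE N H).card = ∑ k ∈ range (N / (2 * H) + 1),
        ((PE N H).filter (fun q => q.1 / (2 * H) = k)).card :=
      card_eq_sum_card_fiberwise (fun q hq => by
        rw [mem_coe, PE, mem_filter, mem_product] at hq
        exact mem_coe.2 (hmaps _ hq.1.1))
    rw [h3]
    refine sum_congr rfl fun k _ => ?_
    rw [pow_two, ← card_product]
    congr 1
    ext q
    simp only [PE, mem_filter, mem_product]
    constructor
    · rintro ⟨⟨⟨ha, hb⟩, hab⟩, hk⟩
      exact ⟨⟨ha, hk⟩, ⟨hb, by rw [← hab]; exact hk⟩⟩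
    · rintro ⟨⟨ha, hak⟩, ⟨hb, hbk⟩⟩
      exact ⟨⟨⟨ha, hb⟩, by rw [hak, hbk]⟩, hak⟩
  have h4 := sq_sum_le_card_mul_sum_sq (s := range (N / (2 * H) + 1))
    (f := fun k => (((OP N).filter (fun p => p / (2 * H) = k)).card : ℝ))
  rw [card_range] at h4
  have h5 : ((OP N).card : ℝ) = ∑ k ∈ range (N / (2 * H) + 1),
      (((OP N).filter (fun p => p / (2 * H) = k)).card : ℝ) := by
    rw [← Nat.cast_sum, ← h1]
  have h6 : ((PE N H).card : ℝ) = ∑ k ∈ range (N / (2 * H) + 1),
      (((OP N).filter (fun p => p / (2 * H) = k)).card : ℝ) ^ 2 := by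
    rw [h2]; push_cast; rfl
  rw [h5, h6]
  exact h4

lemma rH_sum_eq (N H : ℕ) : ∑ n ∈ Ioc 0 N, rH H n =
    (((Ioc 0 N ×ˢ Ioc 0 H).filter (fun q => (q.1 - q.2).Prime ∧ (q.1 + q.2).Prime)).card : ℝ) := by
  rw [card_filter, sum_product]
  push_cast
  rfl

lemma pairs_le (N H : ℕ) (hH : 0 < H) :
    ((PE N H).card : ℝ) ≤ (OP N).card + 2 * ∑ n ∈ Ioc 0 N, rH H n := by
  classical
  set Wf := (Ioc 0 N ×ˢ Ioc 0 H).filter (fun q => (q.1 - q.2).Prime ∧ (q.1 + q.2).Prime) with hWf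
  have hlt : ((PE N H).filter (fun q => q.1 < q.2)).card ≤ Wf.card := by
    apply card_le_card_of_injOn (fun q => ((q.1 + q.2) / 2, (q.2 - q.1) / 2))
    · intro q hq
      rw [mem_coe, mem_filter, PE, mem_filter, mem_product, mem_OP, mem_OP] at hq
      obtain ⟨⟨⟨⟨h1, h2⟩, h3, h4⟩, h5⟩, h6⟩ := hq
      have o1 := h2.odd_of_ne_two (by omega)
      have o2 := h4.odd_of_ne_two (by omega)
      rw [Nat.odd_iff] at o1 o2
      have hdist : q.2 < q.1 + 2 * H := by
        have e1 := Nat.div_add_mod q.1 (2 * H)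
        have e2 := Nat.div_add_mod q.2 (2 * H)
        have e3 := Nat.mod_lt q.2 (show 0 < 2 * H by omega)
        rw [← h5] at e2
        omega
      show ((q.1 + q.2) / 2, (q.2 - q.1) / 2) ∈ (Wf : Set (ℕ × ℕ))
      rw [mem_coe, hWf, mem_filter, mem_product, mem_Ioc, mem_Ioc]
      refine ⟨⟨⟨by show 0 < (q.1 + q.2) / 2; omega, by show (q.1 + q.2) / 2 ≤ N; omega⟩,
        by show 0 < (q.2 - q.1) / 2; omega, by show (q.2 - q.1) / 2 ≤ H; omega⟩, ?_, ?_⟩
      · show ((q.1 + q.2) / 2 - (q.2 - q.1) / 2).Prime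
        have : (q.1 + q.2) / 2 - (q.2 - q.1) / 2 = q.1 := by omega
        rw [this]; exact h2
      · show ((q.1 + q.2) / 2 + (q.2 - q.1) / 2).Prime
        have : (q.1 + q.2) / 2 + (q.2 - q.1) / 2 = q.2 := by omega
        rw [this]; exact h4
    · intro q hq q' hq' heq
      rw [mem_coe, mem_filter, PE, mem_filter, mem_product, mem_OP, mem_OP] at hq hq'
      obtain ⟨⟨⟨⟨h1, h2⟩, h3, h4⟩, h5⟩, h6⟩ := hq
      obtain ⟨⟨⟨⟨h1', h2'⟩, h3', h4'⟩, h5'⟩, h6'⟩ := hq'
      have o1 := h2.odd_of_ne_two (by omega)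
      have o2 := h4.odd_of_ne_two (by omega)
      have o1' := h2'.odd_of_ne_two (by omega)
      have o2' := h4'.odd_of_ne_two (by omega)
      rw [Nat.odd_iff] at o1 o2 o1' o2'
      rw [Prod.mk.injEq] at heq
      ext <;> omega
  have hgt : ((PE N H).filter (fun q => q.2 < q.1)).card
      ≤ ((PE N H).filter (fun q => q.1 < q.2)).card := by
    apply card_le_card_of_injOn Prod.swap
    · intro q hq
      rw [mem_coe, mem_filter, PE, mem_filter, mem_product] at hq
      rw [mem_coe, mem_filter, PE, mem_filter, mem_product]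
      exact ⟨⟨⟨hq.1.1.2, hq.1.1.1⟩, hq.1.2.symm⟩, hq.2⟩
    · exact Prod.swap_injective.injOn
  have hdiag : ((PE N H).filter (fun q => q.1 = q.2)).card ≤ (OP N).card := by
    apply card_le_card_of_injOn Prod.fst
    · intro q hq
      rw [mem_coe, mem_filter, PE, mem_filter, mem_product] at hq
      exact mem_coe.2 hq.1.1.1
    · intro q hq q' hq' heq
      rw [mem_coe, mem_filter] at hq hq'
      have e1 := hq.2
      have e2 := hq'.2
      ext
      · exact heq
      · rw [← e1, ← e2]; exact heq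
  have hcov : PE N H ⊆ (PE N H).filter (fun q => q.1 = q.2) ∪
      ((PE N H).filter (fun q => q.1 < q.2) ∪ (PE N H).filter (fun q => q.2 < q.1)) := by
    intro q hq
    rw [mem_union, mem_union, mem_filter, mem_filter, mem_filter]
    rcases lt_trichotomy q.1 q.2 with h | h | h
    · exact Or.inr (Or.inl ⟨hq, h⟩)
    · exact Or.inl ⟨hq, h⟩
    · exact Or.inr (Or.inr ⟨hq, h⟩)
  have hc := card_le_card hcov
  have u1 := card_union_le ((PE N H).filter (fun q => q.1 = q.2))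
    ((PE N H).filter (fun q => q.1 < q.2) ∪ (PE N H).filter (fun q => q.2 < q.1))
  have u2 := card_union_le ((PE N H).filter (fun q => q.1 < q.2))
    ((PE N H).filter (fun q => q.2 < q.1))
  have hfin : (PE N H).card ≤ (OP N).card + 2 * Wf.card := by omega
  rw [rH_sum_eq]
  exact_mod_cast hfin

/-- the lower bound for the first moment -/
theorem first_lower : ∃ N₀ : ℕ, ∀ N : ℕ, N₀ ≤ N → ∀ H : ℕ, 4 * Real.log N ≤ H → 2 * H ≤ N →
    N * H / (32 * Real.log N ^ 2) ≤ ∑ n ∈ Ioc 0 N, rH H n := by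
  obtain ⟨N₀, hN₀⟩ := OP_card
  refine ⟨max N₀ 3, fun N hN H hH hHN => ?_⟩
  have hN1 : N₀ ≤ N := (le_max_left _ _).trans hN
  have hN3 : 3 ≤ N := (le_max_right _ _).trans hN
  have hNR : (3 : ℝ) ≤ N := by exact_mod_cast hN3
  have hL : 0 < Real.log N := Real.log_pos (by linarith)
  set L := Real.log N with hLd
  have hH0 : (0 : ℝ) < H := by linarith
  have hH0' : 0 < H := by exact_mod_cast hH0
  have hs := hN₀ N hN1
  have h1 := sq_le N H
  have h2 := pairs_le N H hH0'
  set s : ℝ := ((OP N).card : ℝ) with hsd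
  set W := ∑ n ∈ Ioc 0 N, rH H n with hW
  have hK : ((N / (2 * H) + 1 : ℕ) : ℝ) ≤ N / H := by
    have e1 : ((N / (2 * H) : ℕ) : ℝ) ≤ N / (2 * H : ℕ) := Nat.cast_div_le
    have e2 : (2 * H : ℝ) ≤ N := by exact_mod_cast hHN
    push_cast at e1 ⊢
    have e3 : (N : ℝ) / H = N / (2 * H) + N / (2 * H) := by field_simp; ring
    have e4 : 1 ≤ (N : ℝ) / (2 * H) := by
      rw [le_div_iff₀ (by positivity)]; linarith
    rw [e3]; linarith
  have hP0 : (0 : ℝ) ≤ (PE N H).card := by positivity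
  have h3 : s ^ 2 ≤ N / H * (s + 2 * W) := by
    calc s ^ 2 ≤ ((N / (2 * H) + 1 : ℕ) : ℝ) * ((PE N H).card : ℝ) := h1
      _ ≤ N / H * ((PE N H).card : ℝ) := by gcongr
      _ ≤ N / H * (s + 2 * W) := by gcongr
  have hs0 : 0 < s := lt_of_lt_of_le (by positivity) hs
  -- s^2 H / N ≤ s + 2 W
  have h4 : s ^ 2 * H / N ≤ s + 2 * W := by
    rw [div_le_iff₀ (by linarith)]
    have := mul_le_mul_of_nonneg_right h3 hH0.le
    calc s ^ 2 * H ≤ N / H * (s + 2 * W) * H := this
      _ = (s + 2 * W) * N := by field_simp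
  -- s ≤ s^2 H / (2 N)
  have h5 : 2 * s ≤ s ^ 2 * H / N := by
    rw [le_div_iff₀ (by linarith)]
    have e1 : 2 * N ≤ s * H := by
      calc (2 : ℝ) * N = (N / (2 * L)) * (4 * L) := by field_simp; ring
        _ ≤ s * H := by gcongr
    nlinarith
  have h6 : s ^ 2 * H / N ≤ 4 * W := by linarith
  have h7 : N * H / (32 * L ^ 2) ≤ s ^ 2 * H / N / 4 := by
    have e1 : (N / (2 * L)) ^ 2 ≤ s ^ 2 := by gcongr
    have e2 : N * H / (32 * L ^ 2) = (N / (2 * L)) ^ 2 * H / N / 8 := by field_simp; ring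
    have e3 : (N / (2 * L)) ^ 2 * H / N / 8 ≤ s ^ 2 * H / N / 8 := by gcongr
    have e4 : 0 ≤ s ^ 2 * H / N := by positivity
    rw [e2]; linarith
  linarith

end Pool.Agent.Gold42
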